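import Pool.Agent.Helper48.ND.Main

/-!
# Deterministic network decomposition in `O(log^2 n)` rounds of the LOCAL model

The LOCAL model (`Alg`, `Alg.run`) and network decompositions with strong diameter (`IsDecomp`) are
defined in `Pool/Agent/Helper48/ND/Model.lean`.
-/

namespace Pool.Agent.Results.MP_d89dc3_lc.LogSquared

open Pool.Agent.Helper48.ND

/-- For every `c` (identifiers with at most `c` times as many binary digits as `n`) there are a
deterministic LOCAL algorithm `A` and a constant `K` such that on every graph `G` with `n` vertices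
and every assignment of distinct identifiers `id v < 2 ^ (c * (⌊log₂ n⌋ + 1))` the output of every
vertex is fixed from round `K * (⌊log₂ n⌋ + 1) ^ 2` on, and the outputs (colour, name of the cluster)
form a network decomposition with at most `K * (⌊log₂ n⌋ + 1)` colours and strong diameter at most
`2 * ⌊log₂ n⌋`. -/
theorem result : ∀ c : ℕ, ∃ (A : Alg (ℕ × ℕ)) (K : ℕ), ∀ (V : Type) [Fintype V]
    (G : SimpleGraph V) (id : V → ℕ), Function.Injective id →
    (∀ v, id v < 2 ^ (c * (Nat.log 2 (Fintype.card V) + 1))) →
    ∃ col clu : V → ℕ,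
      IsDecomp G (K * (Nat.log 2 (Fintype.card V) + 1)) (2 * Nat.log 2 (Fintype.card V)) col clu ∧
      ∀ T, K * (Nat.log 2 (Fintype.card V) + 1) ^ 2 ≤ T →
        ∀ v, A.out (A.run G id T v) = (col v, clu v) :=
  main

end Pool.Agent.Results.MP_d89dc3_lc.LogSquared
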